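import Pool.Agent.Results.MP_44775e_co.BicliqueGap

/-!
# Strong chromatic number at least 3/2 of the biclique number

For every `m` there is an `m`-regular graph on `3 m + 1` vertices in which no complete bipartite
subgraph has more than `m + 1` vertices (so the biclique number is `m + 1`, the least possible value
for a graph with maximum degree `m`), and whose strong chromatic number is at least `(3 m + 1) / 2`.

The graph: remove the vertex `0` from the cyclic group of order `3 m + 2`; the rest is divided into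
three consecutive intervals with `m`, `m + 1`, `m` elements; two elements of different intervals are
adjacent when their cyclic distance is at most `m`. (It is the tripartite complement of an
Andrásfai graph without one vertex; `m = 2` gives the seven-cycle.)
-/

set_option autoImplicit false

namespace Pool.Agent.Results.MP_44775e_co.RatioThreeHalves

open Pool.Agent.Results.MP_44775e_co.BicliqueGap

/-- The three intervals `[0, m)`, `[m, 2m]`, `[2m + 1, 3m]`. -/
def part (m x : ℕ) : Fin 3 := if x < m then 0 else if x ≤ 2 * m then 1 else 2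

/-- The cyclic distance in the group of order `3 m + 2` is at most `m`. -/
def near (m x y : ℕ) : Prop :=
  (x ≤ y + m ∧ y ≤ x + m) ∨ x + (2 * m + 2) ≤ y ∨ y + (2 * m + 2) ≤ x

/-- The graph on the `3 m + 1` nonzero elements `x + 1` of the cyclic group of order `3 m + 2`. -/
def arcs (m : ℕ) : SimpleGraph (Fin (3 * m + 1)) where
  Adj x y := part m x ≠ part m y ∧ near m x y
  symm := ⟨fun x y h => ⟨h.1.symm, by
    have := h.2
    unfold near at *
    omega⟩⟩
  loopless := ⟨fun x h => h.1 rfl⟩

lemma part_cases (m x : ℕ) : (part m x = 0 ∧ x < m) ∨ (part m x = 1 ∧ m ≤ x ∧ x ≤ 2 * m) ∨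
    (part m x = 2 ∧ 2 * m + 1 ≤ x) := by
  unfold part
  split_ifs with h1 h2
  · exact Or.inl ⟨rfl, h1⟩
  · exact Or.inr (Or.inl ⟨rfl, by omega, h2⟩)
  · exact Or.inr (Or.inr ⟨rfl, by omega⟩)

/-- The neighbours of a vertex of the first interval. -/
lemma adj0 (m : ℕ) (x y : Fin (3 * m + 1)) (h : (x : ℕ) < m) : (arcs m).Adj x y ↔
    (m ≤ (y : ℕ) ∧ (y : ℕ) < x + m + 1) ∨ (x + 2 * m + 2 ≤ (y : ℕ) ∧ (y : ℕ) < 3 * m + 1) := by
  show (part m x ≠ part m y ∧ near m x y) ↔ _
  have hy := y.isLt
  have e1 : part m x = 0 := by unfold part; rw [if_pos h]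
  unfold near
  rcases part_cases m y with ⟨e2, h2⟩ | ⟨e2, h2, h2'⟩ | ⟨e2, h2⟩ <;> rw [e1, e2]
  · simp only [ne_eq, not_true_eq_false, false_and, false_iff]
    omega
  · have : (0 : Fin 3) ≠ 1 := by decide
    simp only [ne_eq, this, not_false_eq_true, true_and]
    omega
  · have : (0 : Fin 3) ≠ 2 := by decide
    simp only [ne_eq, this, not_false_eq_true, true_and]
    omega

/-- The neighbours of a vertex of the second interval. -/
lemma adj1 (m : ℕ) (x y : Fin (3 * m + 1)) (h : m ≤ (x : ℕ)) (h' : (x : ℕ) ≤ 2 * m) :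
    (arcs m).Adj x y ↔
    (x - m ≤ (y : ℕ) ∧ (y : ℕ) < m) ∨ (2 * m + 1 ≤ (y : ℕ) ∧ (y : ℕ) < x + m + 1) := by
  show (part m x ≠ part m y ∧ near m x y) ↔ _
  have hy := y.isLt
  have e1 : part m x = 1 := by unfold part; rw [if_neg (by omega), if_pos h']
  unfold near
  rcases part_cases m y with ⟨e2, h2⟩ | ⟨e2, h2, h2'⟩ | ⟨e2, h2⟩ <;> rw [e1, e2]
  · have : (1 : Fin 3) ≠ 0 := by decide
    simp only [ne_eq, this, not_false_eq_true, true_and]
    omega
  · simp only [ne_eq, not_true_eq_false, false_and, false_iff]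
    omega
  · have : (1 : Fin 3) ≠ 2 := by decide
    simp only [ne_eq, this, not_false_eq_true, true_and]
    omega

/-- The neighbours of a vertex of the third interval. -/
lemma adj2 (m : ℕ) (x y : Fin (3 * m + 1)) (h : 2 * m + 1 ≤ (x : ℕ)) : (arcs m).Adj x y ↔
    (0 ≤ (y : ℕ) ∧ (y : ℕ) < x - (2 * m + 1)) ∨ (x - m ≤ (y : ℕ) ∧ (y : ℕ) < 2 * m + 1) := by
  show (part m x ≠ part m y ∧ near m x y) ↔ _
  have hx := x.isLt
  have hy := y.isLt
  have e1 : part m x = 2 := by unfold part; rw [if_neg (by omega), if_neg (by omega)]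
  unfold near
  rcases part_cases m y with ⟨e2, h2⟩ | ⟨e2, h2, h2'⟩ | ⟨e2, h2⟩ <;> rw [e1, e2]
  · have : (2 : Fin 3) ≠ 0 := by decide
    simp only [ne_eq, this, not_false_eq_true, true_and]
    omega
  · have : (2 : Fin 3) ≠ 1 := by decide
    simp only [ne_eq, this, not_false_eq_true, true_and]
    omega
  · simp only [ne_eq, not_true_eq_false, false_and, false_iff]
    omega

/-- Three vertices of the three intervals are not independent. -/
lemma no_transversal (m : ℕ) (x y z : Fin (3 * m + 1)) (hx : (x : ℕ) < m)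
    (hy : m ≤ (y : ℕ) ∧ (y : ℕ) ≤ 2 * m) (hz : 2 * m + 1 ≤ (z : ℕ)) (h1 : ¬ (arcs m).Adj x y)
    (h2 : ¬ (arcs m).Adj x z) (h3 : ¬ (arcs m).Adj y z) : False := by
  have g1 : (x : ℕ) + m < y := by
    by_contra hc
    exact h1 ((adj0 m x y hx).2 (Or.inl ⟨hy.1, by omega⟩))
  have g3 : (y : ℕ) + m < z := by
    by_contra hc
    exact h3 ((adj1 m y z hy.1 hy.2).2 (Or.inr ⟨hz, by omega⟩))
  exact h2 ((adj0 m x z hx).2 (Or.inr ⟨by omega, z.isLt⟩))

/-- Three vertices in pairwise different intervals are not independent. -/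
lemma no_indep (m : ℕ) (x y z : Fin (3 * m + 1)) (p1 : part m x ≠ part m y)
    (p2 : part m x ≠ part m z) (p3 : part m y ≠ part m z) (h1 : ¬ (arcs m).Adj x y)
    (h2 : ¬ (arcs m).Adj x z) (h3 : ¬ (arcs m).Adj y z) : False := by
  have s : ∀ {a b : Fin (3 * m + 1)}, ¬ (arcs m).Adj a b → ¬ (arcs m).Adj b a :=
    fun h h' => h h'.symm
  rcases part_cases m x with ⟨e1, g1⟩ | ⟨e1, g1⟩ | ⟨e1, g1⟩
  · rcases part_cases m y with ⟨e2, g2⟩ | ⟨e2, g2⟩ | ⟨e2, g2⟩
    · exact p1 (e1.trans e2.symm)
    · rcases part_cases m z with ⟨e3, g3⟩ | ⟨e3, g3⟩ | ⟨e3, g3⟩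
      · exact p2 (e1.trans e3.symm)
      · exact p3 (e2.trans e3.symm)
      · exact no_transversal m x y z g1 g2 g3 h1 h2 h3
    · rcases part_cases m z with ⟨e3, g3⟩ | ⟨e3, g3⟩ | ⟨e3, g3⟩
      · exact p2 (e1.trans e3.symm)
      · exact no_transversal m x z y g1 g3 g2 h2 h1 (s h3)
      · exact p3 (e2.trans e3.symm)
  · rcases part_cases m y with ⟨e2, g2⟩ | ⟨e2, g2⟩ | ⟨e2, g2⟩
    · rcases part_cases m z with ⟨e3, g3⟩ | ⟨e3, g3⟩ | ⟨e3, g3⟩
      · exact p3 (e2.trans e3.symm)
      · exact p2 (e1.trans e3.symm)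
      · exact no_transversal m y x z g2 g1 g3 (s h1) h3 h2
    · exact p1 (e1.trans e2.symm)
    · rcases part_cases m z with ⟨e3, g3⟩ | ⟨e3, g3⟩ | ⟨e3, g3⟩
      · exact no_transversal m z x y g3 g1 g2 (s h2) (s h3) h1
      · exact p2 (e1.trans e3.symm)
      · exact p3 (e2.trans e3.symm)
  · rcases part_cases m y with ⟨e2, g2⟩ | ⟨e2, g2⟩ | ⟨e2, g2⟩
    · rcases part_cases m z with ⟨e3, g3⟩ | ⟨e3, g3⟩ | ⟨e3, g3⟩
      · exact p3 (e2.trans e3.symm)
      · exact no_transversal m y z x g2 g3 g1 h3 (s h1) (s h2)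
      · exact p2 (e1.trans e3.symm)
    · rcases part_cases m z with ⟨e3, g3⟩ | ⟨e3, g3⟩ | ⟨e3, g3⟩
      · exact no_transversal m z y x g3 g2 g1 (s h3) (s h2) (s h1)
      · exact p3 (e2.trans e3.symm)
      · exact p2 (e1.trans e3.symm)
    · exact p1 (e1.trans e2.symm)

lemma card_val (m : ℕ) (Y : Finset (Fin (3 * m + 1))) (a b c d : ℕ)
    (h : ∀ y ∈ Y, (a ≤ (y : ℕ) ∧ (y : ℕ) < b) ∨ (c ≤ (y : ℕ) ∧ (y : ℕ) < d)) :
    Y.card ≤ (b - a) + (d - c) := by
  classical
  have h1 : (Y.image Fin.val).card = Y.card := Finset.card_image_of_injective _ Fin.val_injective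
  rw [← h1]
  calc (Y.image Fin.val).card ≤ (Finset.Ico a b ∪ Finset.Ico c d).card := by
        apply Finset.card_le_card
        intro z hz
        obtain ⟨y, hy, rfl⟩ := Finset.mem_image.mp hz
        rw [Finset.mem_union, Finset.mem_Ico, Finset.mem_Ico]
        exact h y hy
    _ ≤ (Finset.Ico a b).card + (Finset.Ico c d).card := Finset.card_union_le _ _
    _ = _ := by rw [Nat.card_Ico, Nat.card_Ico]

/-- A complete bipartite subgraph one side of which lies in one of the intervals. -/
lemma biclique_one (m : ℕ) (X Y : Finset (Fin (3 * m + 1))) (hX : X.Nonempty)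
    (hXY : ∀ x ∈ X, ∀ y ∈ Y, (arcs m).Adj x y)
    (hp : ∀ x ∈ X, ∀ x' ∈ X, part m x = part m x') (hY : Y.Nonempty) :
    X.card + Y.card ≤ m + 1 := by
  obtain ⟨a, ha, ha'⟩ := X.exists_min_image Fin.val hX
  obtain ⟨b, hb, hb'⟩ := X.exists_max_image Fin.val hX
  have h1 : X.card ≤ (b : ℕ) + 1 - a := by
    have := card_val m X a (b + 1) 0 0 fun x hx =>
      Or.inl ⟨ha' x hx, Nat.lt_succ_of_le (hb' x hx)⟩
    omega
  have hab := ha' b hb
  have hlt := b.isLt
  obtain ⟨y0, hy0⟩ := hY
  have hlt0 := y0.isLt
  have hpab := hp a ha b hb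
  rcases part_cases m a with ⟨e1, g1⟩ | ⟨e1, g1, g1'⟩ | ⟨e1, g1⟩
  · rcases part_cases m b with ⟨e2, g2⟩ | ⟨e2, g2⟩ | ⟨e2, g2⟩
    · have h2 := card_val m Y m (a + m + 1) (b + 2 * m + 2) (3 * m + 1) fun y hy => by
        have h3 := (adj0 m a y g1).1 (hXY a ha y hy)
        have h4 := (adj0 m b y g2).1 (hXY b hb y hy)
        clear * - h3 h4 hab g1 g2
        omega
      clear * - h1 h2 hab g1 g2
      omega
    · rw [e1, e2] at hpab; exact absurd hpab (by decide)
    · rw [e1, e2] at hpab; exact absurd hpab (by decide)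
  · rcases part_cases m b with ⟨e2, g2⟩ | ⟨e2, g2, g2'⟩ | ⟨e2, g2⟩
    · rw [e1, e2] at hpab; exact absurd hpab (by decide)
    · have h2 := card_val m Y (b - m) m (2 * m + 1) (a + m + 1) fun y hy => by
        have h3 := (adj1 m a y g1 g1').1 (hXY a ha y hy)
        have h4 := (adj1 m b y g2 g2').1 (hXY b hb y hy)
        clear * - h3 h4 hab g1 g1' g2 g2'
        omega
      clear * - h1 h2 hab g1 g1' g2 g2'
      omega
    · rw [e1, e2] at hpab; exact absurd hpab (by decide)
  · rcases part_cases m b with ⟨e2, g2⟩ | ⟨e2, g2⟩ | ⟨e2, g2⟩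
    · rw [e1, e2] at hpab; exact absurd hpab (by decide)
    · rw [e1, e2] at hpab; exact absurd hpab (by decide)
    · have h2 := card_val m Y 0 (a - (2 * m + 1)) (b - m) (2 * m + 1) fun y hy => by
        have h3 := (adj2 m a y g1).1 (hXY a ha y hy)
        have h4 := (adj2 m b y g2).1 (hXY b hb y hy)
        clear * - h3 h4 hab g1 g2
        omega
      clear * - h1 h2 hab g1 g2 hlt
      omega

lemma three (p q r s : Fin 3) (h : p ≠ q) (h1 : p ≠ r) (h2 : q ≠ r) (h3 : p ≠ s) (h4 : q ≠ s) :
    r = s := by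
  revert p q r s
  decide

/-- Complete bipartite subgraphs have at most `m + 1` vertices. -/
lemma biclique_two (m : ℕ) (X Y : Finset (Fin (3 * m + 1))) (hX : X.Nonempty) (hY : Y.Nonempty)
    (hXY : ∀ x ∈ X, ∀ y ∈ Y, (arcs m).Adj x y) : X.card + Y.card ≤ m + 1 := by
  by_cases h : ∀ x ∈ X, ∀ x' ∈ X, part m x = part m x'
  · exact biclique_one m X Y hX hXY h hY
  · push Not at h
    obtain ⟨x, hx, x', hx', hne⟩ := h
    have h2 := biclique_one m Y X hY (fun y hy x hx => (hXY x hx y hy).symm) (fun y hy y' hy' =>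
      three _ _ _ _ hne (hXY x hx y hy).1 (hXY x' hx' y hy).1 (hXY x hx y' hy').1
        (hXY x' hx' y' hy').1) hX
    omega

lemma biclique_le' (m a b : ℕ) (ha : 1 ≤ a) (hb : 1 ≤ b)
    (hc : (completeBipartiteGraph (Fin a) (Fin b)).IsContained (arcs m)) : a + b ≤ m + 1 := by
  classical
  obtain ⟨f⟩ := hc
  have hinj : Function.Injective f := f.injective
  let A : Finset (Fin (3 * m + 1)) := Finset.univ.image (fun i : Fin a => f (Sum.inl i))
  let B : Finset (Fin (3 * m + 1)) := Finset.univ.image (fun i : Fin b => f (Sum.inr i))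
  have hA : A.card = a := by
    rw [Finset.card_image_of_injective]
    · simp
    · intro i j hij
      exact Sum.inl_injective (hinj hij)
  have hB : B.card = b := by
    rw [Finset.card_image_of_injective]
    · simp
    · intro i j hij
      exact Sum.inr_injective (hinj hij)
  have hAB : ∀ x ∈ A, ∀ y ∈ B, (arcs m).Adj x y := by
    intro x hx y hy
    obtain ⟨i, -, rfl⟩ := Finset.mem_image.mp hx
    obtain ⟨j, -, rfl⟩ := Finset.mem_image.mp hy
    exact f.toHom.map_adj (by simp [completeBipartiteGraph])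
  have hA' : A.Nonempty := by
    rw [← Finset.card_pos]; omega
  have hB' : B.Nonempty := by
    rw [← Finset.card_pos]; omega
  have := biclique_two m A B hA' hB' hAB
  omega

/-- The star with the centre `m` and the leaves `0, …, m - 1`. -/
lemma star (m : ℕ) (hm : 1 ≤ m) :
    (completeBipartiteGraph (Fin m) (Fin 1)).IsContained (arcs m) := by
  refine ⟨⟨⟨Sum.elim (fun i => ⟨i, by omega⟩) (fun _ => ⟨m, by omega⟩), ?_⟩, ?_⟩⟩
  · have key : ∀ i : Fin m, (arcs m).Adj (⟨i, by omega⟩ : Fin (3 * m + 1))
        (⟨m, by omega⟩ : Fin (3 * m + 1)) := by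
      intro i
      rw [adj0 m _ _ (by exact i.isLt)]
      left
      have := i.isLt
      refine ⟨le_rfl, ?_⟩
      show m < (i : ℕ) + m + 1
      omega
    rintro (u | u) (v | v) huv
    · simp [completeBipartiteGraph] at huv
    · exact key u
    · exact (key v).symm
    · simp [completeBipartiteGraph] at huv
  · rintro (u | u) (v | v) huv
    · have h1 := congrArg Fin.val huv
      simp only [Sum.elim_inl, RelHom.coeFn_mk] at h1
      exact congrArg _ (Fin.ext h1)
    · have h1 := congrArg Fin.val huv
      have := u.isLt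
      simp at h1
      omega
    · have h1 := congrArg Fin.val huv
      have := v.isLt
      simp at h1
      omega
    · exact congrArg _ (Subsingleton.elim u v)

lemma bicliqueNumber_eq (m : ℕ) : bicliqueNumber (arcs m) = m + 1 := by
  classical
  rcases Nat.eq_zero_or_pos m with rfl | hm
  · have h : arcs 0 = ⊥ := by
      ext x y
      simp only [SimpleGraph.bot_adj, iff_false]
      intro h
      have h2 : x = y := Subsingleton.elim (α := Fin 1) x y
      exact h.ne h2
    unfold bicliqueNumber
    rw [if_pos h]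
  · have h : arcs m ≠ ⊥ := by
      intro h
      obtain ⟨f⟩ := star m hm
      have h1 : (arcs m).Adj (f (Sum.inl ⟨0, hm⟩)) (f (Sum.inr 0)) :=
        f.toHom.map_adj (by simp [completeBipartiteGraph])
      have h2 : ∀ x y, ¬ (arcs m).Adj x y := by
        intro x y
        rw [h]
        exact fun h => h
      exact h2 _ _ h1
    unfold bicliqueNumber
    rw [if_neg h]
    apply le_antisymm
    · refine csSup_le ⟨m + 1, m, 1, hm, le_rfl, rfl, star m hm⟩ ?_
      rintro s ⟨a, b, ha, hb, rfl, hc⟩
      exact biclique_le' m a b ha hb hc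
    · apply le_csSup
      · refine ⟨m + 1, ?_⟩
        rintro s ⟨a, b, ha, hb, rfl, hc⟩
        exact biclique_le' m a b ha hb hc
      · exact ⟨m, 1, hm, le_rfl, rfl, star m hm⟩

/-- A map from the graph vertices to the parts that is small on every part extends to an
admissible partition of the enlarged vertex set. -/
lemma extend {V : Type} [Fintype V] [DecidableEq V] (k q : ℕ) (hk : 1 ≤ k)
    (hq : Fintype.card V ≤ k * q) (S : Finset V) (f : V → Fin q)
    (hf : ∀ i, (S.filter (fun x => f x = i)).card ≤ k) (i0 : Fin q) :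
    ∃ p : V ⊕ Fin (k * q - Fintype.card V) → Fin q,
      (∀ x ∈ S, p (Sum.inl x) = f x) ∧
      ∀ i, (Finset.univ.filter (fun x => p x = i)).card = k := by
  classical
  obtain ⟨p, hp1, hp2⟩ := exists_partition
    (U := V ⊕ Fin (k * q - Fintype.card V)) q k hk
    (by rw [Fintype.card_sum, Fintype.card_fin, Nat.add_sub_cancel' hq, mul_comm])
    (S.map Function.Embedding.inl) (Sum.elim f (fun _ => i0)) (by
      intro i
      rw [Finset.filter_map, Finset.card_map]
      exact hf i)
  refine ⟨p, ?_, hp2⟩
  intro x hx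
  have := hp1 (Sum.inl x) (Finset.mem_map_of_mem Function.Embedding.inl hx)
  simpa using this

/-- Few colours are not enough. -/
lemma lower' (m k : ℕ) (hk : 1 ≤ k) (h : StronglyColorable (arcs m) k) : 3 * m + 1 ≤ 2 * k := by
  classical
  by_contra hlt
  push Not at hlt
  have hcardV : Fintype.card (Fin (3 * m + 1)) = 3 * m + 1 := Fintype.card_fin _
  have hq1 : Fintype.card (Fin (3 * m + 1)) ≤ k * numParts (Fintype.card (Fin (3 * m + 1))) k :=
    numParts_mul _ _ hk
  have hq2 : 2 < numParts (Fintype.card (Fin (3 * m + 1))) k :=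
    two_lt_numParts _ _ hk (by rw [hcardV]; exact hlt)
  unfold StronglyColorable at h
  generalize numParts (Fintype.card (Fin (3 * m + 1))) k = q at h hq1 hq2
  by_cases hc : m + 1 ≤ k
  · have hfib : ∀ i : Fin q, ((Finset.univ : Finset (Fin (3 * m + 1))).filter
        (fun x : Fin (3 * m + 1) => Fin.castLE hq2 (part m x) = i)).card ≤ k := by
      intro i
      by_cases hi : ∃ j : Fin 3, Fin.castLE hq2 j = i
      · obtain ⟨j, rfl⟩ := hi
        have hj : ∀ x ∈ ((Finset.univ : Finset (Fin (3 * m + 1))).filter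
            (fun x : Fin (3 * m + 1) => Fin.castLE hq2 (part m x) = Fin.castLE hq2 j)), part m x = j := by
          intro x hx
          have h1 := (Finset.mem_filter.1 hx).2
          exact Fin.castLE_injective hq2 h1
        have hj3 : j = 0 ∨ j = 1 ∨ j = 2 := by
          clear * -
          revert j
          decide
        refine le_trans ?_ hc
        generalize hT : ((Finset.univ : Finset (Fin (3 * m + 1))).filter
            (fun x : Fin (3 * m + 1) => Fin.castLE hq2 (part m x) = Fin.castLE hq2 j)) = T at hj ⊢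
        clear hT
        rcases hj3 with rfl | rfl | rfl
        · have := card_val m T 0 m 0 0 fun x hx => by
            rcases part_cases m x with ⟨e, g⟩ | ⟨e, g⟩ | ⟨e, g⟩
            · exact Or.inl ⟨Nat.zero_le _, g⟩
            · rw [hj x hx] at e; exact absurd e (by decide)
            · rw [hj x hx] at e; exact absurd e (by decide)
          omega
        · have := card_val m T m (2 * m + 1) 0 0 fun x hx => by
            rcases part_cases m x with ⟨e, g⟩ | ⟨e, g⟩ | ⟨e, g⟩
            · rw [hj x hx] at e; exact absurd e (by decide)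
            · exact Or.inl ⟨g.1, by omega⟩
            · rw [hj x hx] at e; exact absurd e (by decide)
          omega
        · have := card_val m T (2 * m + 1) (3 * m + 1) 0 0 fun x hx => by
            rcases part_cases m x with ⟨e, g⟩ | ⟨e, g⟩ | ⟨e, g⟩
            · rw [hj x hx] at e; exact absurd e (by decide)
            · rw [hj x hx] at e; exact absurd e (by decide)
            · exact Or.inl ⟨g, x.isLt⟩
          omega
      · have : ((Finset.univ : Finset (Fin (3 * m + 1))).filter
            (fun x : Fin (3 * m + 1) => Fin.castLE hq2 (part m x) = i)) = ∅ := by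
          rw [Finset.filter_eq_empty_iff]
          intro l _ hl
          exact hi ⟨_, hl⟩
        rw [this]
        simp
    obtain ⟨p, hp1, hp2⟩ := extend k q hk hq1 Finset.univ
      (fun x : Fin (3 * m + 1) => Fin.castLE hq2 (part m x)) hfib ⟨0, by omega⟩
    obtain ⟨c⟩ := h p hp2
    have hpig : Fintype.card (Fin k) * 2 < Fintype.card (Fin (3 * m + 1)) := by
      rw [hcardV, Fintype.card_fin]; omega
    obtain ⟨y, hy⟩ := Fintype.exists_lt_card_fiber_of_mul_lt_card
      (fun x : Fin (3 * m + 1) => c (Sum.inl x)) hpig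
    obtain ⟨u, hu, v, hv, w, hw, huv, huw, hvw⟩ := Finset.two_lt_card.mp hy
    simp only [Finset.mem_filter, Finset.mem_univ, true_and] at hu hv hw
    have key : ∀ a b : Fin (3 * m + 1), a ≠ b → c (Sum.inl a) = c (Sum.inl b) →
        ¬ (arcs m).Adj a b ∧ part m a ≠ part m b := by
      intro a b hab hcab
      have hnadj : ¬ (withCliques (arcs m) p).Adj (Sum.inl a) (Sum.inl b) := by
        intro hadj
        exact c.valid hadj hcab
      constructor
      · intro hadj
        apply hnadj
        left
        exact hadj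
      · intro hblk
        apply hnadj
        right
        rw [SimpleGraph.fromRel_adj]
        refine ⟨by simpa using hab, Or.inl ?_⟩
        rw [hp1 a (Finset.mem_univ _), hp1 b (Finset.mem_univ _), hblk]
    obtain ⟨n1, b1⟩ := key u v huv (hu.trans hv.symm)
    obtain ⟨n2, b2⟩ := key u w huw (hu.trans hw.symm)
    obtain ⟨n3, b3⟩ := key v w hvw (hv.trans hw.symm)
    exact no_indep m u v w b1 b2 b3 n1 n2 n3
  · -- a star whose leaves are in one part
    push Not at hc
    let z : Fin (3 * m + 1) := ⟨m, by omega⟩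
    let S : Finset (Fin (3 * m + 1)) := Finset.univ.filter fun x => (x : ℕ) < k ∨ x = z
    have hS : S.card = k + 1 := by
      have e1 : S.image Fin.val = insert m (Finset.range k) := by
        ext t
        simp only [S, Finset.mem_image, Finset.mem_filter, Finset.mem_univ, true_and,
          Finset.mem_insert, Finset.mem_range]
        constructor
        · rintro ⟨x, hx | hx, rfl⟩
          · exact Or.inr hx
          · rw [hx]; exact Or.inl rfl
        · rintro (rfl | ht)
          · exact ⟨z, Or.inr rfl, rfl⟩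
          · exact ⟨⟨t, by omega⟩, Or.inl ht, rfl⟩
      rw [← Finset.card_image_of_injective S Fin.val_injective, e1, Finset.card_insert_of_notMem,
        Finset.card_range]
      rw [Finset.mem_range]
      omega
    let b0 : Fin q := ⟨0, by omega⟩
    let b1 : Fin q := ⟨1, by omega⟩
    have hb01 : b0 ≠ b1 := by
      intro he
      have := congrArg Fin.val he
      simp [b0, b1] at this
    let f : Fin (3 * m + 1) → Fin q := fun x => if x = z then b0 else b1
    have hz : z ∈ S := by simp [S]
    have h0 : (⟨0, by omega⟩ : Fin (3 * m + 1)) ∈ S := by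
      simp only [S, Finset.mem_filter, Finset.mem_univ, true_and]
      left
      omega
    have h0z : (⟨0, by omega⟩ : Fin (3 * m + 1)) ≠ z := by
      intro e
      have := congrArg Fin.val e
      simp [z] at this
      omega
    have hfib : ∀ i, (S.filter (fun x => f x = i)).card ≤ k := by
      intro i
      have : ∃ t ∈ S, f t ≠ i := by
        by_cases hi : i = b0
        · refine ⟨_, h0, ?_⟩
          rw [hi]
          simp only [f, if_neg h0z]
          exact hb01.symm
        · refine ⟨z, hz, ?_⟩
          simp only [f, if_pos]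
          exact fun e => hi e.symm
      obtain ⟨t, htS, hti⟩ := this
      have hss : S.filter (fun x => f x = i) ⊆ S.erase t := by
        intro x hx
        simp only [Finset.mem_filter] at hx
        rw [Finset.mem_erase]
        refine ⟨?_, hx.1⟩
        rintro rfl
        exact hti hx.2
      have := Finset.card_le_card hss
      rw [Finset.card_erase_of_mem htS, hS] at this
      simpa using this
    obtain ⟨p, hp1, hp2⟩ := extend k q hk hq1 S f hfib b0
    have hcol := h p hp2
    have hclique : (withCliques (arcs m) p).IsClique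
        (S.map (Function.Embedding.inl (β := Fin (k * q - Fintype.card (Fin (3 * m + 1))))) :
          Set _) := by
      intro x hx y hy hxy
      simp only [Finset.coe_map, Set.mem_image, Finset.mem_coe] at hx hy
      obtain ⟨x, hx, rfl⟩ := hx
      obtain ⟨y, hy, rfl⟩ := hy
      have hxy' : x ≠ y := fun e => hxy (by rw [e])
      by_cases hfxy : f x = f y
      · right
        rw [SimpleGraph.fromRel_adj]
        refine ⟨hxy, Or.inl ?_⟩
        show p (Sum.inl x) = p (Sum.inl y)
        rw [hp1 x hx, hp1 y hy, hfxy]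
      · left
        show (arcs m).Adj x y
        have key : ∀ t ∈ S, t ≠ z → (arcs m).Adj t z := by
          intro t ht htz
          rcases (Finset.mem_filter.1 ht).2 with h1 | h1
          · rw [adj0 m t z (by omega)]
            left
            refine ⟨le_rfl, ?_⟩
            show m < (t : ℕ) + m + 1
            omega
          · exact absurd h1 htz
        by_cases hxz : x = z
        · rw [hxz]
          exact (key y hy fun e => hxy' (hxz.trans e.symm)).symm
        · by_cases hyz : y = z
          · rw [hyz]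
            exact key x hx hxz
          · exact absurd (by show f x = f y; simp only [f, if_neg hxz, if_neg hyz]) hfxy
    have := hclique.card_le_of_colorable hcol
    rw [Finset.card_map, hS] at this
    omega

lemma strong_nonempty' {V : Type} [Fintype V] (G : SimpleGraph V) (hV : 1 ≤ Fintype.card V) :
    {k : ℕ | 1 ≤ k ∧ StronglyColorable G k}.Nonempty := by
  refine ⟨Fintype.card V, hV, ?_⟩
  intro p _
  have hpos : (0 : ℚ) < (Fintype.card V : ℚ) := by exact_mod_cast hV
  have hq : numParts (Fintype.card V) (Fintype.card V) = 1 := by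
    unfold numParts
    rw [div_self hpos.ne']
    simp
  have hcol := SimpleGraph.colorable_of_fintype (withCliques G p)
  have hcard : Fintype.card (V ⊕ Fin (Fintype.card V *
      numParts (Fintype.card V) (Fintype.card V) - Fintype.card V)) = Fintype.card V := by
    rw [Fintype.card_sum, Fintype.card_fin, hq]
    omega
  rw [hcard] at hcol
  exact hcol

lemma strong_ge (m : ℕ) : 3 * m + 1 ≤ 2 * strongChromaticNumber (arcs m) := by
  have h2 := Nat.sInf_mem (strong_nonempty' (arcs m) (by rw [Fintype.card_fin]; omega))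
  exact lower' m _ h2.1 h2.2

/-- The degrees. -/
lemma degree (m : ℕ) (x : Fin (3 * m + 1)) : ((arcs m).neighborSet x).ncard = m := by
  classical
  have key : ∀ a b c d : ℕ, b ≤ c → c ≤ 3 * m + 1 ∧ d ≤ 3 * m + 1 → (∀ y : Fin (3 * m + 1), (arcs m).Adj x y ↔
      (a ≤ (y : ℕ) ∧ (y : ℕ) < b) ∨ (c ≤ (y : ℕ) ∧ (y : ℕ) < d)) → (b - a) + (d - c) = m →
      ((arcs m).neighborSet x).ncard = m := by
    intro a b c d hbc hd h hm
    have e1 : Fin.val '' ((arcs m).neighborSet x) =
        ((Finset.Ico a b ∪ Finset.Ico c d : Finset ℕ) : Set ℕ) := by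
      ext t
      simp only [Set.mem_image, SimpleGraph.mem_neighborSet, Finset.coe_union, Finset.coe_Ico,
        Set.mem_union, Set.mem_Ico]
      constructor
      · rintro ⟨y, hy, rfl⟩
        exact (h y).1 hy
      · intro ht
        have hlt : t < 3 * m + 1 := by omega
        exact ⟨⟨t, hlt⟩, (h ⟨t, hlt⟩).2 ht, rfl⟩
    rw [← Set.ncard_image_of_injective _ Fin.val_injective, e1, Set.ncard_coe_finset,
      Finset.card_union_of_disjoint, Nat.card_Ico, Nat.card_Ico, hm]
    rw [Finset.disjoint_left]
    intro t h1 h2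
    rw [Finset.mem_Ico] at h1 h2
    omega
  have hx := x.isLt
  rcases part_cases m x with ⟨e, g⟩ | ⟨e, g, g'⟩ | ⟨e, g⟩
  · exact key m (x + m + 1) (x + 2 * m + 2) (3 * m + 1) (by omega) ⟨by omega, le_rfl⟩
      (fun y => adj0 m x y g) (by omega)
  · exact key (x - m) m (2 * m + 1) (x + m + 1) (by omega) (by omega)
      (fun y => adj1 m x y g g') (by omega)
  · exact key 0 (x - (2 * m + 1)) (x - m) (2 * m + 1) (by omega) (by omega)
      (fun y => adj2 m x y g) (by omega)

/-- **The strong chromatic number can be 3/2 times as large as the biclique number (in the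
limit).** For every `m` there is an `m`-regular graph on `3 m + 1` vertices with biclique number
`m + 1` (the least value allowed by the degree) and strong chromatic number at least
`(3 m + 1) / 2`. -/
theorem result : ∀ m : ℕ, ∃ G : SimpleGraph (Fin (3 * m + 1)),
    (∀ x, (G.neighborSet x).ncard = m) ∧ bicliqueNumber G = m + 1 ∧
      3 * m + 1 ≤ 2 * strongChromaticNumber G :=
  fun m => ⟨arcs m, degree m, bicliqueNumber_eq m, strong_ge m⟩

/-- Consequences. For every `w ≥ 1` there is a graph with biclique number exactly `w` whose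
strong chromatic number is at least `3 w / 2 - 1`; the difference is at least `t` already for
`w = 2 t + 2`; for every `c < 3/2` and all large `w` there is a graph with biclique number
exactly `w` and strong chromatic number larger than `c w`. -/
theorem consequences :
    (∀ w : ℕ, 1 ≤ w → ∃ G : SimpleGraph (Fin (3 * w - 2)), bicliqueNumber G = w ∧
      3 * w - 2 ≤ 2 * strongChromaticNumber G) ∧
    (∀ t : ℕ, ∃ (V : Type) (_ : Fintype V) (G : SimpleGraph V),
      bicliqueNumber G = 2 * t + 2 ∧ bicliqueNumber G + t ≤ strongChromaticNumber G) ∧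
    (∀ c : ℝ, c < 3 / 2 → ∃ w₀ : ℕ, ∀ w ≥ w₀, ∃ (V : Type) (_ : Fintype V) (G : SimpleGraph V),
      bicliqueNumber G = w ∧ c * w < strongChromaticNumber G) := by
  have h2 : ∀ w : ℕ, 1 ≤ w → ∃ G : SimpleGraph (Fin (3 * w - 2)), bicliqueNumber G = w ∧
      3 * w - 2 ≤ 2 * strongChromaticNumber G := by
    intro w hw
    obtain ⟨m, rfl⟩ : ∃ m, w = m + 1 := ⟨w - 1, by omega⟩
    have e : 3 * (m + 1) - 2 = 3 * m + 1 := by omega
    rw [e]
    obtain ⟨G, -, h3, h4⟩ := result m
    exact ⟨G, h3, h4⟩
  refine ⟨h2, fun t => ?_, fun c hc => ?_⟩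
  · obtain ⟨G, h3, h4⟩ := h2 (2 * t + 2) (by omega)
    exact ⟨_, inferInstance, G, h3, by omega⟩
  · obtain ⟨w₀, hw₀⟩ := exists_nat_gt (1 / (3 / 2 - c))
    refine ⟨max w₀ 1, fun w hw => ?_⟩
    obtain ⟨G, h3, h4⟩ := h2 w (le_trans (le_max_right _ _) hw)
    refine ⟨_, inferInstance, G, h3, ?_⟩
    have h5 : (w₀ : ℝ) ≤ w := by exact_mod_cast le_trans (le_max_left _ _) hw
    have h6 : 0 < 3 / 2 - c := by linarith
    have h7 : 1 < (3 / 2 - c) * w := by
      rw [div_lt_iff₀ h6] at hw₀
      nlinarith
    have h8 : (3 * w : ℝ) ≤ 2 * strongChromaticNumber G + 2 := by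
      have : 3 * w ≤ 2 * strongChromaticNumber G + 2 := by omega
      exact_mod_cast this
    linarith

end Pool.Agent.Results.MP_44775e_co.RatioThreeHalves
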